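import Pool.Agent.Lib_helper62.AVM.BB
import Pool.Agent.Lib_helper66.AVM.QS

/-!
# Project AVM (MP_05dcdc_nt), block LB: sums of symbols between the primes `p_i`
-/

set_option autoImplicit false

namespace Pool.Agent.AVM

open Finset Filter Topology Pool.Agent.PQ Pool.Agent.GL

/-- the symbol as a complex number -/
private noncomputable def LB_J (a b : ℕ) : ℂ := ((jacobiSym (a : ℤ) b : ℤ) : ℂ)

private theorem LB_J_norm (a b : ℕ) : ‖LB_J a b‖ ≤ 1 := by
  unfold LB_J
  rcases jacobiSym.trichotomy (a : ℤ) b with h | h | h <;> rw [h] <;> simp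

private theorem LB_J_odd (a b m : ℕ) (hm : m % 2 = 1) : LB_J a b ^ m = LB_J a b := by
  unfold LB_J
  obtain ⟨t, rfl⟩ : Odd m := Nat.odd_iff.mpr hm
  rcases jacobiSym.trichotomy (a : ℤ) b with h | h | h <;> rw [h]
  · simp
  · simp
  · simp [pow_succ, pow_mul]

open Classical in
/-- the product of the symbols over the pairs with `P` -/
private noncomputable def LB_P {k : ℕ} (f : Fin k → Fin k → ℕ) (P : Fin k → Fin k → Prop)
    (u : Fin (k + 1) → ℕ) : ℂ :=
  ∏ i : Fin k, ∏ j : Fin k, (if P i j then LB_J (u i.castSucc) (u j.castSucc) ^ f i j else 1)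

private theorem LB_P_norm {k : ℕ} (f : Fin k → Fin k → ℕ) (P : Fin k → Fin k → Prop)
    (u : Fin (k + 1) → ℕ) : ‖LB_P f P u‖ ≤ 1 := by
  classical
  unfold LB_P
  rw [norm_prod]
  refine Finset.prod_le_one (fun i _ => norm_nonneg _) fun i _ => ?_
  rw [norm_prod]
  refine Finset.prod_le_one (fun j _ => norm_nonneg _) fun j _ => ?_
  split_ifs
  · rw [norm_pow]
    exact pow_le_one₀ (norm_nonneg _) (LB_J_norm _ _)
  · simp

private theorem LB_P_congr {k : ℕ} (f : Fin k → Fin k → ℕ) (P : Fin k → Fin k → Prop)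
    (u v : Fin (k + 1) → ℕ)
    (h : ∀ i j, P i j → u i.castSucc = v i.castSucc ∧ u j.castSucc = v j.castSucc) :
    LB_P f P u = LB_P f P v := by
  classical
  unfold LB_P
  refine Finset.prod_congr rfl fun i _ => Finset.prod_congr rfl fun j _ => ?_
  split_ifs with hP
  · rw [(h i j hP).1, (h i j hP).2]
  · rfl

private theorem LB_P_mul {k : ℕ} (f : Fin k → Fin k → ℕ) (P Q : Fin k → Fin k → Prop)
    (u : Fin (k + 1) → ℕ) (h : ∀ i j, P i j → ¬ Q i j) :
    LB_P f P u * LB_P f Q u = LB_P f (fun i j => P i j ∨ Q i j) u := by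
  classical
  unfold LB_P
  rw [← Finset.prod_mul_distrib]
  refine Finset.prod_congr rfl fun i _ => ?_
  rw [← Finset.prod_mul_distrib]
  refine Finset.prod_congr rfl fun j _ => ?_
  by_cases hP : P i j
  · have hQ := h i j hP
    simp [hP, hQ]
  · simp [hP]

private theorem LB_P_single {k : ℕ} (f : Fin k → Fin k → ℕ) (i₀ j₀ : Fin k)
    (u : Fin (k + 1) → ℕ) :
    LB_P f (fun i j => i = i₀ ∧ j = j₀) u = LB_J (u i₀.castSucc) (u j₀.castSucc) ^ f i₀ j₀ := by
  classical
  unfold LB_P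
  rw [Finset.prod_eq_single i₀, Finset.prod_eq_single j₀]
  · simp
  · intro j _ hj
    simp [hj]
  · simp
  · intro i _ hi
    simp [hi]
  · simp

/-- the condition on the tuple without `u i₀` -/
private def LB_CA {k : ℕ} (i₀ j₀ : Fin k) (c : ℕ) (v : Fin (k + 1) → ℕ) : Prop :=
  (∀ i : Fin k, i ≠ i₀ → v i.castSucc % 4 = 1) ∧ v (Fin.last k) % 4 = 3 ∧
    v j₀.castSucc % 8 = c ∧
    ∀ i j : Fin k, i ≠ i₀ → j ≠ i₀ → i ≠ j → v i.castSucc ≠ v j.castSucc

/-- the condition on the tuple without `u j₀` -/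
private def LB_CB {k : ℕ} (i₀ j₀ : Fin k) (c : ℕ) (v : Fin (k + 1) → ℕ) : Prop :=
  v i₀.castSucc % 4 = 1 ∧ (c * ∏ i ∈ univ.erase j₀.castSucc, v i) % 8 = 3 ∧
    ∀ i : Fin k, i ≠ i₀ → i ≠ j₀ → v i.castSucc ≠ v i₀.castSucc

private theorem LB_CA_upd {k : ℕ} (i₀ j₀ : Fin k) (hij : i₀ < j₀) (c : ℕ) (u : Fin (k + 1) → ℕ) :
    LB_CA i₀ j₀ c (Function.update u i₀.castSucc 0) ↔ LB_CA i₀ j₀ c u := by
  have h : ∀ i : Fin k, i ≠ i₀ → Function.update u i₀.castSucc 0 i.castSucc = u i.castSucc :=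
    fun i hi => Function.update_of_ne (fun h => hi (Fin.castSucc_injective k h)) _ _
  have hl : Function.update u i₀.castSucc 0 (Fin.last k) = u (Fin.last k) :=
    Function.update_of_ne (Fin.castSucc_lt_last i₀).ne' _ _
  unfold LB_CA
  rw [hl, h j₀ hij.ne']
  refine and_congr ?_ (and_congr Iff.rfl (and_congr Iff.rfl ?_))
  · exact forall_congr' fun i => imp_congr_right fun hi => by rw [h i hi]
  · exact forall_congr' fun i => forall_congr' fun j => imp_congr_right fun hi =>
      imp_congr_right fun hj => by rw [h i hi, h j hj]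

private theorem LB_CB_upd {k : ℕ} (i₀ j₀ : Fin k) (hij : i₀ < j₀) (c : ℕ) (u : Fin (k + 1) → ℕ) :
    LB_CB i₀ j₀ c (Function.update u j₀.castSucc 0) ↔ LB_CB i₀ j₀ c u := by
  have h : ∀ i : Fin k, i ≠ j₀ → Function.update u j₀.castSucc 0 i.castSucc = u i.castSucc :=
    fun i hi => Function.update_of_ne (fun h => hi (Fin.castSucc_injective k h)) _ _
  have hp : ∏ i ∈ univ.erase j₀.castSucc, Function.update u j₀.castSucc 0 i =
      ∏ i ∈ univ.erase j₀.castSucc, u i :=
    Finset.prod_congr rfl fun i hi => Function.update_of_ne (Finset.ne_of_mem_erase hi) _ _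
  unfold LB_CB
  rw [hp, h i₀ hij.ne]
  refine and_congr Iff.rfl (and_congr Iff.rfl ?_)
  exact forall_congr' fun i => imp_congr_right fun _ => imp_congr_right fun hj => by rw [h i hj]

/-- the condition for the pairs in the first function -/
private def LB_PA {k : ℕ} (i₀ : Fin k) (i j : Fin k) : Prop := i < j ∧ i ≠ i₀ ∧ j ≠ i₀

/-- the condition for the pairs in the second function -/
private def LB_PB {k : ℕ} (i₀ j₀ : Fin k) (i j : Fin k) : Prop :=
  i < j ∧ (i = i₀ ∨ j = i₀) ∧ ¬ (i = i₀ ∧ j = j₀)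

private theorem LB_split {k : ℕ} (f : Fin k → Fin k → ℕ) (i₀ j₀ : Fin k) (hij : i₀ < j₀)
    (hf : f i₀ j₀ % 2 = 1) (u : Fin (k + 1) → ℕ) :
    LB_P f (fun i j => i < j) u =
      LB_P f (LB_PA i₀) u * LB_P f (LB_PB i₀ j₀) u * LB_J (u i₀.castSucc) (u j₀.castSucc) := by
  rw [← LB_J_odd _ _ _ hf, ← LB_P_single, LB_P_mul, LB_P_mul]
  · congr 1
    funext i j
    apply propext
    unfold LB_PA LB_PB
    constructor
    · intro h
      by_cases h1 : i = i₀ ∧ j = j₀
      · exact Or.inr h1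
      · by_cases h2 : i = i₀ ∨ j = i₀
        · exact Or.inl (Or.inr ⟨h, h2, h1⟩)
        · push Not at h2
          exact Or.inl (Or.inl ⟨h, h2⟩)
    · rintro ((h | h) | ⟨rfl, rfl⟩)
      · exact h.1
      · exact h.1
      · exact hij
  · rintro i j (h | h) ⟨rfl, rfl⟩
    · exact h.2.1 rfl
    · exact h.2.2 ⟨rfl, rfl⟩
  · rintro i j h ⟨_, h2 | h2, _⟩
    · exact h.2.1 h2
    · exact h.2.2 h2

/-- a good tuple in terms of the two conditions -/
private theorem LB_good {k : ℕ} (i₀ j₀ : Fin k) (hij : i₀ < j₀) (c : ℕ) (u : Fin (k + 1) → ℕ) :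
    (LB_CA i₀ j₀ c u ∧ LB_CB i₀ j₀ c u ∧ u i₀.castSucc ≠ u j₀.castSucc) ↔
      (Good k u ∧ c = u j₀.castSucc % 8) := by
  have hprod : u j₀.castSucc * ∏ i ∈ univ.erase j₀.castSucc, u i = ∏ i, u i :=
    Finset.mul_prod_erase univ u (Finset.mem_univ _)
  have hc : ∀ c, c = u j₀.castSucc % 8 → (c * ∏ i ∈ univ.erase j₀.castSucc, u i) % 8 =
      (∏ i, u i) % 8 := by
    rintro c rfl
    rw [Nat.mod_mul_mod, hprod]
  constructor
  · rintro ⟨⟨h1, h2, h3, h4⟩, ⟨h5, h6, h7⟩, h8⟩
    have hall : ∀ i : Fin k, u i.castSucc % 4 = 1 := by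
      intro i
      by_cases hi : i = i₀
      · rw [hi]; exact h5
      · exact h1 i hi
    refine ⟨⟨?_, hall, h2, ?_⟩, h3.symm⟩
    · have hne : ∀ i j : Fin k, i ≠ j → u i.castSucc ≠ u j.castSucc := by
        have h9 : ∀ i : Fin k, i ≠ i₀ → u i.castSucc ≠ u i₀.castSucc := by
          intro i hi
          by_cases hj : i = j₀
          · rw [hj]; exact h8.symm
          · exact h7 i hi hj
        intro i j hne
        by_cases hi : i = i₀
        · rw [hi]; exact (h9 j (fun h => hne (hi.trans h.symm))).symm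
        · by_cases hj : j = i₀
          · rw [hj]; exact h9 i hi
          · exact h4 i j hi hj hne
      intro a b hab
      induction a using Fin.lastCases with
      | last =>
        induction b using Fin.lastCases with
        | last => rfl
        | cast j =>
          have := hall j
          rw [← hab] at this
          omega
      | cast i =>
        induction b using Fin.lastCases with
        | last =>
          have := hall i
          rw [hab] at this
          omega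
        | cast j =>
          by_contra hcon
          exact hne i j (fun h => hcon (by rw [h])) hab
    · rw [← hc c h3.symm]; exact h6
  · rintro ⟨⟨h1, h2, h3, h4⟩, h5⟩
    have hne : ∀ i j : Fin k, i ≠ j → u i.castSucc ≠ u j.castSucc :=
      fun i j hij h => hij (Fin.castSucc_injective k (h1 h))
    exact ⟨⟨fun i _ => h2 i, h3, h5.symm, fun i j _ _ h => hne i j h⟩,
      ⟨h2 i₀, (hc c h5).trans h4, fun i hi _ => hne i i₀ hi⟩, hne i₀ j₀ hij.ne⟩

open Classical in
/-- the decomposition of one term -/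
private theorem LB_term {k : ℕ} (f : Fin k → Fin k → ℕ) (i₀ j₀ : Fin k) (hij : i₀ < j₀)
    (hf : f i₀ j₀ % 2 = 1) (u : Fin (k + 1) → ℕ) (hu : ∀ i, (u i).Prime) :
    (if Good k u then LB_P f (fun i j => i < j) u else 0) =
      ∑ c ∈ range 8, (if LB_CA i₀ j₀ c u then LB_P f (LB_PA i₀) u else 0) *
        (if LB_CB i₀ j₀ c u then LB_P f (LB_PB i₀ j₀) u else 0) *
        (qc (u j₀.castSucc) ^ 2) (u i₀.castSucc : ZMod (u j₀.castSucc)) := by
  have hz : ∀ c, u j₀.castSucc % 4 = 1 → u i₀.castSucc = u j₀.castSucc →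
      (if LB_CA i₀ j₀ c u then LB_P f (LB_PA i₀) u else 0) *
        (if LB_CB i₀ j₀ c u then LB_P f (LB_PB i₀ j₀) u else 0) *
        (qc (u j₀.castSucc) ^ 2) (u i₀.castSucc : ZMod (u j₀.castSucc)) = 0 := by
    intro c h4 h
    rw [← qc_two (u j₀.castSucc) (hu _) h4, h]
    have : NeZero (u j₀.castSucc) := ⟨(hu _).ne_zero⟩
    rw [jacobiSym.eq_zero_iff_not_coprime.mpr]
    · simp
    · rw [Int.gcd_natCast_natCast, Nat.gcd_self]
      exact (hu _).one_lt.ne'
  by_cases hG : Good k u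
  · rw [if_pos hG, Finset.sum_eq_single (u j₀.castSucc % 8)]
    · obtain ⟨h1, h2, h3⟩ := (LB_good i₀ j₀ hij _ u).mpr ⟨hG, rfl⟩
      rw [if_pos h1, if_pos h2, LB_split f i₀ j₀ hij hf,
        ← qc_two (u j₀.castSucc) (hu _) (hG.2.1 j₀)]
      rfl
    · intro c _ hc
      rw [if_neg (fun h => hc h.2.2.1.symm), zero_mul, zero_mul]
    · intro h
      exact absurd (Finset.mem_range.mpr (Nat.mod_lt _ (by norm_num))) h
  · rw [if_neg hG]
    symm
    refine Finset.sum_eq_zero fun c _ => ?_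
    by_cases h1 : LB_CA i₀ j₀ c u
    · by_cases h2 : LB_CB i₀ j₀ c u
      · by_cases h3 : u i₀.castSucc = u j₀.castSucc
        · exact hz c (h1.1 j₀ hij.ne') h3
        · exact absurd ((LB_good i₀ j₀ hij c u).mp ⟨h1, h2, h3⟩).1 hG
      · rw [if_neg h2, mul_zero, zero_mul]
    · rw [if_neg h1, zero_mul, zero_mul]

theorem lb (k : ℕ) (f : Fin k → Fin k → ℕ) (hf : ∃ i j, i < j ∧ f i j % 2 = 1) (ε : ℝ) (hε : 0 < ε) :
    ∃ X₀ : ℕ, ∀ X : ℕ, X₀ ≤ X →
    ‖∑ u ∈ GT k X, ∏ i : Fin k, ∏ j : Fin k,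
      (if i < j then ((jacobiSym (u i.castSucc : ℤ) (u j.castSucc) : ℤ) : ℂ) ^ f i j else 1)‖ ≤ ε * LL k X := by
  classical
  obtain ⟨i₀, j₀, hij, hodd⟩ := hf
  obtain ⟨n, rfl⟩ : ∃ n, k = n + 1 := ⟨k - 1, by have := i₀.2; omega⟩
  obtain ⟨X₀, hX₀⟩ := bb n j₀.castSucc i₀.castSucc
    (fun h => hij.ne' (Fin.castSucc_injective _ h)) (ε / 8) (by positivity)
  refine ⟨X₀, fun X hX => ?_⟩
  have hb := hX₀ X hX (fun p => qc p ^ 2)
  have hterm : ∀ c, ‖∑ u ∈ Tup (n + 2) X,
      (if LB_CA i₀ j₀ c u then LB_P f (LB_PA i₀) u else 0) *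
        (if LB_CB i₀ j₀ c u then LB_P f (LB_PB i₀ j₀) u else 0) *
        (qc (u j₀.castSucc) ^ 2) (u i₀.castSucc : ZMod (u j₀.castSucc))‖ ≤
      ε / 8 * LL (n + 1) X := by
    intro c
    have h := hb (fun v => if LB_CA i₀ j₀ c v then LB_P f (LB_PA i₀) v else 0)
      (fun v => if LB_CB i₀ j₀ c v then LB_P f (LB_PB i₀ j₀) v else 0) ?_ ?_ ?_
    · refine le_of_eq_of_le ?_ h
      congr 1
      refine Finset.sum_congr rfl fun u _ => ?_
      have e1 : (if LB_CA i₀ j₀ c (Function.update u i₀.castSucc 0) then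
          LB_P f (LB_PA i₀) (Function.update u i₀.castSucc 0) else 0) =
          (if LB_CA i₀ j₀ c u then LB_P f (LB_PA i₀) u else 0) := by
        rw [LB_P_congr f (LB_PA i₀) (Function.update u i₀.castSucc 0) u]
        · by_cases h : LB_CA i₀ j₀ c u
          · rw [if_pos h, if_pos ((LB_CA_upd i₀ j₀ hij c u).mpr h)]
          · rw [if_neg h, if_neg (fun h' => h ((LB_CA_upd i₀ j₀ hij c u).mp h'))]
        · intro i j hP
          exact ⟨Function.update_of_ne (fun h => hP.2.1 (Fin.castSucc_injective _ h)) _ _,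
            Function.update_of_ne (fun h => hP.2.2 (Fin.castSucc_injective _ h)) _ _⟩
      have e2 : (if LB_CB i₀ j₀ c (Function.update u j₀.castSucc 0) then
          LB_P f (LB_PB i₀ j₀) (Function.update u j₀.castSucc 0) else 0) =
          (if LB_CB i₀ j₀ c u then LB_P f (LB_PB i₀ j₀) u else 0) := by
        rw [LB_P_congr f (LB_PB i₀ j₀) (Function.update u j₀.castSucc 0) u]
        · by_cases h : LB_CB i₀ j₀ c u
          · rw [if_pos h, if_pos ((LB_CB_upd i₀ j₀ hij c u).mpr h)]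
          · rw [if_neg h, if_neg (fun h' => h ((LB_CB_upd i₀ j₀ hij c u).mp h'))]
        · rintro i j ⟨hlt, hor, hnot⟩
          have hi : i ≠ j₀ := by
            rintro rfl
            rcases hor with h | h
            · exact hij.ne' h
            · rw [h] at hlt; exact lt_asymm hlt hij
          have hj : j ≠ j₀ := by
            rintro rfl
            rcases hor with h | h
            · exact hnot ⟨h, rfl⟩
            · exact hij.ne' h
          exact ⟨Function.update_of_ne (fun h => hi (Fin.castSucc_injective _ h)) _ _,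
            Function.update_of_ne (fun h => hj (Fin.castSucc_injective _ h)) _ _⟩
      rw [e1, e2]
    · intro v
      show ‖(if LB_CA i₀ j₀ c v then LB_P f (LB_PA i₀) v else 0)‖ ≤ 1
      split_ifs
      · exact LB_P_norm _ _ _
      · simp
    · intro v
      show ‖(if LB_CB i₀ j₀ c v then LB_P f (LB_PB i₀ j₀) v else 0)‖ ≤ 1
      split_ifs
      · exact LB_P_norm _ _ _
      · simp
    · intro v hv hne
      have h1 : LB_CA i₀ j₀ c (Function.update v i₀.castSucc 0) := by
        by_contra h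
        exact hne (if_neg h)
      have h2 := ((LB_CA_upd i₀ j₀ hij c v).mp h1).1 j₀ hij.ne'
      exact (qc_ne _ hv h2).2.1
  have heq : ∑ u ∈ GT (n + 1) X, ∏ i : Fin (n + 1), ∏ j : Fin (n + 1),
      (if i < j then ((jacobiSym (u i.castSucc : ℤ) (u j.castSucc) : ℤ) : ℂ) ^ f i j else 1) =
      ∑ c ∈ range 8, ∑ u ∈ Tup (n + 2) X,
      (if LB_CA i₀ j₀ c u then LB_P f (LB_PA i₀) u else 0) *
        (if LB_CB i₀ j₀ c u then LB_P f (LB_PB i₀ j₀) u else 0) *
        (qc (u j₀.castSucc) ^ 2) (u i₀.castSucc : ZMod (u j₀.castSucc)) := by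
    rw [Finset.sum_comm]
    unfold GT
    rw [Finset.sum_filter]
    refine Finset.sum_congr rfl fun u hu => ?_
    have hpr : ∀ i, (u i).Prime := by
      intro i
      have h := Finset.mem_filter.mp hu
      exact (Finset.mem_filter.mp (Fintype.mem_piFinset.mp h.1 i)).2
    rw [← LB_term f i₀ j₀ hij hodd u hpr]
    by_cases hG : Good (n + 1) u
    · rw [if_pos hG, if_pos hG]
      unfold LB_P LB_J
      refine Finset.prod_congr rfl fun i _ => Finset.prod_congr rfl fun j _ => ?_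
      by_cases h : i < j
      · rw [if_pos h, if_pos h]
      · rw [if_neg h, if_neg h]
    · rw [if_neg hG, if_neg hG]
  rw [heq]
  refine (norm_sum_le _ _).trans ((Finset.sum_le_sum fun c _ => hterm c).trans_eq ?_)
  rw [Finset.sum_const, Finset.card_range, nsmul_eq_mul]
  push_cast
  ring

end Pool.Agent.AVM
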